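import Pool.Agent.Work.MP_490135_co.Final

/-!
# MP_490135_co: the number of copies of `P_{k-1}` in `P_k`-free graphs, `k ≥ 9` odd

For every odd `k ≥ 9` and all large `n`, the largest number of copies of `P_{k-1}` in a `P_k`-free
graph on `n` vertices is the largest number of copies of `P_{k-1}` in one of the graphs
`G_{n,k,m}`, `0 ≤ m ≤ n - ⌊k/2⌋`.
-/

namespace Pool.Agent.Results.MP_490135_co.ExPathOdd

open SimpleGraph

/-- `ex(n, P_{k-1}, P_k) = max_m N(P_{k-1}, G_{n,k,m})` for every odd `k ≥ 9` and all large `n`. -/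
theorem result : ∀ k : ℕ, Odd k → 9 ≤ k → ∃ n₀ : ℕ, ∀ n : ℕ, n₀ ≤ n →
    IsGreatest
      {c : ℕ | ∃ G : SimpleGraph (Fin n),
        (pathGraph k).Free G ∧ G.copyCount (pathGraph (k - 1)) = c}
      ((Finset.range (n - k / 2 + 1)).sup
        (fun m => (P490135.Gnkm n (k / 2) m).copyCount (pathGraph (k - 1)))) := by
  rintro k ⟨ℓ, rfl⟩ hk
  obtain ⟨N, rfl⟩ : ∃ N, ℓ = N + 1 := ⟨ℓ - 1, by omega⟩
  obtain ⟨n₀, hn₀⟩ := P490135.ex_main N (by omega)
  refine ⟨n₀, ?_⟩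
  intro n hn
  have h1 : (2 * (N + 1) + 1) / 2 = N + 1 := by omega
  have h2 : 2 * (N + 1) + 1 - 1 = 2 * (N + 1) := by omega
  rw [h1, h2]
  exact hn₀ n hn

end Pool.Agent.Results.MP_490135_co.ExPathOdd
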